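import Mathlib

/-!
# Project AE (helper793): a good point of the base field (job 5930), adapted from Y241.WR.Ext
-/

set_option autoImplicit false

namespace Pool.Agent.Y434.AE

open Polynomial

/-- Two different linear polynomials do not give a square. -/
theorem not_sq {K : Type} [Field K] (t₀ t₁ a : K) (ha : a ≠ 0) (ht : t₀ ≠ t₁) (u : RatFunc K) :
    u ^ 2 ≠ RatFunc.C a * (RatFunc.X - RatFunc.C t₀) * (RatFunc.X - RatFunc.C t₁) := by
  intro hu
  set q : K[X] := C a * (X - C t₀) * (X - C t₁) with hq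
  have h1 : u ^ 2 = algebraMap K[X] (RatFunc K) q := by
    rw [hu, hq]
    simp
  have hint : IsIntegral K[X] u := by
    refine ⟨X ^ 2 - C q, monic_X_pow_sub_C _ two_ne_zero, ?_⟩
    simp [h1]
  obtain ⟨p, rfl⟩ := IsIntegrallyClosed.isIntegral_iff.1 hint
  rw [← map_pow] at h1
  have h2 : p ^ 2 = q := IsFractionRing.injective K[X] (RatFunc K) h1
  have h3 : p.eval t₀ = 0 := by
    have := congrArg (eval t₀) h2
    simp only [eval_pow, hq, eval_mul, eval_C, eval_sub, eval_X, sub_self, mul_zero,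
      zero_mul] at this
    exact pow_eq_zero_iff two_ne_zero |>.1 this
  obtain ⟨p', rfl⟩ := dvd_iff_isRoot.2 h3
  have h4 : (X - C t₀) * (C a * (X - C t₁)) = (X - C t₀) * ((X - C t₀) * p' ^ 2) := by
    rw [← mul_assoc, mul_comm (X - C t₀) (C a), ← hq, ← h2]
    ring
  have h5 := mul_left_cancel₀ (X_sub_C_ne_zero t₀) h4
  have h6 := congrArg (eval t₀) h5
  simp only [eval_mul, eval_C, eval_sub, eval_X, sub_self, zero_mul] at h6
  rcases mul_eq_zero.1 h6 with h | h
  · exact ha h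
  · exact ht (sub_eq_zero.1 h)

theorem star_core :
    ∀ (K L Z : Type) [Field K] [CharZero K] [Field L] [Algebra K L] [Field Z]
    [Algebra (RatFunc L) Z] [FiniteDimensional (RatFunc L) Z] [IsGalois (RatFunc L) Z],
    ∃ t₀ : K, ∀ (z : Z) (a : L), a ≠ 0 →
      z ^ 2 ≠ algebraMap (RatFunc L) Z
        (RatFunc.C a * (RatFunc.X - RatFunc.C (algebraMap K L t₀))) := by
  intro K L Z _ _ _ _ _ _ _ _
  by_contra hcon
  push Not at hcon
  choose z a ha hz using hcon
  have hsgn : ∀ (t : K) (γ : Z ≃ₐ[RatFunc L] Z), γ (z t) = z t ∨ γ (z t) = -z t := by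
    intro t γ
    have h1 : (γ (z t)) ^ 2 = (z t) ^ 2 := by
      rw [← map_pow, hz, AlgEquiv.commutes]
    exact sq_eq_sq_iff_eq_or_eq_neg.1 h1
  classical
  obtain ⟨t₀, t₁, hne, hf⟩ := Finite.exists_ne_map_eq_of_infinite
    (fun (t : K) (γ : Z ≃ₐ[RatFunc L] Z) => decide (γ (z t) = z t))
  have hprod : ∀ γ : Z ≃ₐ[RatFunc L] Z, γ (z t₀ * z t₁) = z t₀ * z t₁ := by
    intro γ
    have h1 := congrFun hf γ
    simp only [decide_eq_decide] at h1
    rw [map_mul]
    rcases hsgn t₀ γ with h0 | h0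
    · rw [h0, h1.1 h0]
    · rcases hsgn t₁ γ with h2 | h2
      · rw [h1.2 h2, h2]
      · rw [h0, h2, neg_mul_neg]
  have h2 : z t₀ * z t₁ ∈ (⊥ : IntermediateField (RatFunc L) Z) :=
    (IsGalois.mem_bot_iff_fixed _).2 hprod
  obtain ⟨u, hu⟩ := IntermediateField.mem_bot.1 h2
  have hne' : algebraMap K L t₀ ≠ algebraMap K L t₁ := fun h => hne ((algebraMap K L).injective h)
  refine not_sq (algebraMap K L t₀) (algebraMap K L t₁) (a t₀ * a t₁)
    (mul_ne_zero (ha _) (ha _)) hne' u ?_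
  apply (algebraMap (RatFunc L) Z).injective
  rw [map_pow, hu, mul_pow, hz, hz, ← map_mul, map_mul RatFunc.C]
  congr 1
  ring

end Pool.Agent.Y434.AE
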