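import Pool.Agent.Y793.E.Stm
import Pool.Agent.Y434.AE.StarCore

/-!
# Project AE (helper793): a good point of the base field (job 5930)
-/

set_option autoImplicit false

namespace Pool.Agent.Y434.AE

theorem t_starL : Pool.Agent.Y793.St_starL := star_core

end Pool.Agent.Y434.AE
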